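import Mathlib

/-! Expansions of logarithms with an error of order `1 / x`. -/

namespace Pool.Agent.P.MP_204fa9_nt

open Real Filter Asymptotics Topology

variable {ι : Type} {l : Filter ι} {x u δ : ι → ℝ}

/-- the ratio `log x / x` -/
noncomputable def gg (x : ℝ) : ℝ := log x / x

theorem log_one_add (h : Tendsto δ l (𝓝 0)) :
    (fun i => log (1 + δ i) - δ i) =O[l] fun i => δ i ^ 2 := by
  refine IsBigO.of_bound 2 ((h.abs.eventually_le_const (show |0| < (1 / 2 : ℝ) by simp)).mono
    fun i hi => ?_)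
  have a := abs_log_sub_add_sum_range_le (x := -δ i) (by rw [abs_neg]; linarith) 1
  simp only [Finset.sum_range_one, abs_neg, sub_neg_eq_add, zero_add, pow_one, Nat.cast_zero,
    div_one] at a
  rw [Real.norm_eq_abs, Real.norm_eq_abs, abs_pow, sub_eq_neg_add]
  refine a.trans ?_
  rw [div_le_iff₀ (by linarith), one_add_one_eq_two]
  nlinarith [sq_nonneg |δ i|]

theorem exp_sub (h : Tendsto δ l (𝓝 0)) :
    (fun i => exp (δ i) - 1 - δ i) =O[l] fun i => δ i ^ 2 := by
  refine IsBigO.of_bound 1 ((h.abs.eventually_le_const (show |0| < (1 : ℝ) by simp)).mono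
    fun i hi => ?_)
  rw [Real.norm_eq_abs, Real.norm_eq_abs, abs_pow, sq_abs, one_mul]
  exact abs_exp_sub_one_sub_id_le hi

theorem cst (c : ℝ) : (fun _ => c) =O[l] fun _ => (1 : ℝ) := isBigO_const_one ℝ c l

variable (hx : Tendsto x l atTop)
include hx

theorem gg_sq : (fun i => gg (x i) ^ 2) =O[l] fun i => (x i)⁻¹ := by
  have a := ((isLittleO_pow_log_id_atTop (n := 2)).comp_tendsto hx).isBigO.mul
    (isBigO_refl (fun i => (x i)⁻¹ ^ 2) l)
  refine a.congr' (Eventually.of_forall fun i => ?_) ((hx.eventually_gt_atTop 0).mono fun i h => ?_)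
  · simp only [gg, Function.comp, div_eq_mul_inv, mul_pow]
  · simp only [Function.comp, id]; field_simp

theorem gg_tend : Tendsto (fun i => gg (x i)) l (𝓝 0) :=
  (isLittleO_log_id_atTop.comp_tendsto hx).tendsto_div_nhds_zero

theorem gg_one : (fun i => gg (x i)) =O[l] fun _ => (1 : ℝ) := (gg_tend hx).isBigO_one ℝ

theorem inv_one' : (fun i => (x i)⁻¹) =O[l] fun _ => (1 : ℝ) :=
  hx.inv_tendsto_atTop.isBigO_one ℝ

theorem one_log : (fun _ => (1 : ℝ)) =O[l] fun i => log (x i) :=
  IsBigO.of_bound 1 (((tendsto_log_atTop.comp hx).eventually_ge_atTop 1).mono fun i h => by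
    rw [one_mul, norm_one]; exact le_trans h (le_abs_self _))

theorem inv_gg : (fun i => (x i)⁻¹) =O[l] fun i => gg (x i) :=
  ((one_log hx).mul (isBigO_refl (fun i => (x i)⁻¹) l)).congr (fun _ => one_mul _)
    fun _ => (div_eq_mul_inv _ _).symm

theorem near_equiv (h : (fun i => u i - x i) =O[l] fun i => log (x i)) : u ~[l] x :=
  h.trans_isLittleO (isLittleO_log_id_atTop.comp_tendsto hx)

theorem near_inv (h : (fun i => u i - x i) =O[l] fun i => log (x i)) :
    (fun i => (x i)⁻¹) =O[l] fun i => (u i)⁻¹ := (near_equiv hx h).inv.isBigO_symm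

theorem near_top (h : (fun i => u i - x i) =O[l] fun i => log (x i)) : Tendsto u l atTop :=
  (near_equiv hx h).symm.tendsto_atTop hx

theorem log_near (h : (fun i => u i - x i) =O[l] fun i => log (x i)) :
    (fun i => log (u i) - log (x i) - (u i - x i) / x i) =O[l] fun i => (x i)⁻¹ := by
  have a : (fun i => (u i - x i) / x i) =O[l] fun i => gg (x i) :=
    h.mul (isBigO_refl (fun i => (x i)⁻¹) l)
  refine (((log_one_add (a.trans_tendsto (gg_tend hx))).trans (a.pow 2)).trans (gg_sq hx)).congr' ?_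
    EventuallyEq.rfl
  filter_upwards [hx.eventually_gt_atTop 0, (near_top hx h).eventually_gt_atTop 0] with i h1 h2
  rw [← log_div h2.ne' h1.ne']
  congr 2
  field_simp
  ring

theorem near_of {c : ℝ} (h : (fun i => u i - x i - c * log (x i)) =O[l] fun _ => (1 : ℝ)) :
    (fun i => u i - x i) =O[l] fun i => log (x i) :=
  ((h.trans (one_log hx)).add ((isBigO_refl _ l).const_mul_left c)).congr_left fun _ => by ring

theorem log_exp1 {c : ℝ} (h : (fun i => u i - x i - c * log (x i)) =O[l] fun _ => (1 : ℝ)) :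
    (fun i => log (u i) - log (x i) - c * gg (x i)) =O[l] fun i => (x i)⁻¹ :=
  ((log_near hx (near_of hx h)).add ((h.mul (isBigO_refl (fun i => (x i)⁻¹) l)).congr_right
    fun _ => one_mul _)).congr_left fun _ => by simp only [gg]; ring

theorem gg_near (h : (fun i => u i - x i) =O[l] fun i => log (x i)) :
    (fun i => gg (u i) - gg (x i)) =O[l] fun i => (x i)⁻¹ := by
  have a : (fun i => (u i - x i) / x i) =O[l] fun i => gg (x i) :=
    h.mul (isBigO_refl (fun i => (x i)⁻¹) l)
  have b : (fun i => (u i)⁻¹) =O[l] fun i => (x i)⁻¹ := (near_equiv hx h).inv.isBigO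
  have c : (fun i => log (u i) - log (x i)) =O[l] fun _ => (1 : ℝ) :=
    (((log_near hx h).trans (inv_one' hx)).add (a.trans (gg_one hx))).congr_left fun _ => by ring
  have d := ((a.mul ((isBigO_refl (fun i => log (x i)) l).mul b)).congr_right
    (g₂ := fun i => gg (x i) ^ 2) fun _ => by simp only [gg]; ring).trans (gg_sq hx)
  refine (((c.mul b).congr_right fun _ => one_mul _).sub d).congr' ?_ EventuallyEq.rfl
  filter_upwards [hx.eventually_gt_atTop 0, (near_top hx h).eventually_gt_atTop 0] with i h1 h2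
  simp only [gg]
  field_simp
  ring

theorem log_rel {X Y : ι → ℝ} (hY : ∀ᶠ i in l, 0 < Y i)
    (h : (fun i => X i - Y i) =O[l] fun i => Y i / x i) :
    (fun i => log (X i) - log (Y i)) =O[l] fun i => (x i)⁻¹ := by
  have a : (fun i => (X i - Y i) / Y i) =O[l] fun i => (x i)⁻¹ :=
    (h.mul (isBigO_refl (fun i => (Y i)⁻¹) l)).congr' EventuallyEq.rfl
      (hY.mono fun i hi => by simp only; field_simp)
  have b := a.trans_tendsto hx.inv_tendsto_atTop
  have c : (fun i => ((X i - Y i) / Y i) ^ 2) =O[l] fun i => (x i)⁻¹ :=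
    ((a.mul (b.isBigO_one ℝ)).congr (fun _ => (sq _).symm) fun _ => mul_one _)
  refine (((log_one_add b).trans c).add a).congr' ?_ EventuallyEq.rfl
  filter_upwards [hY, b.eventually_const_lt (show (-1 : ℝ) < 0 by norm_num)] with i h1 h2
  have h3 : 0 < X i := by
    rw [lt_div_iff₀ h1] at h2
    linarith
  rw [← log_div h3.ne' h1.ne', sub_add_cancel]
  congr 1
  field_simp
  ring

/-- the end of the computation -/
theorem final {L q m t : ι → ℝ}
    (hL : (fun i => L i - (x i - log (x i) - gg (x i) / 2)) =O[l] fun i => (x i)⁻¹)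
    (hq : (fun i => q i - (log 2 + 2 * x i + log (x i) + gg (x i))) =O[l] fun i => (x i)⁻¹)
    (hm : ∀ᶠ i in l, 0 < L i + log (L i) + 2 * m i ∧
      q i = log 2 + 2 * L i + 5 * m i + 2 * log (L i) + log (L i + log (L i) + 2 * m i))
    (ht : (fun i => t i - gg (x i)) =O[l] fun i => (x i)⁻¹) :
    (fun i => (exp (t i) - exp (m i)) * L i - log (L i) / 5) =O[l] fun _ => (1 : ℝ) := by
  have i1 := inv_one' hx
  have g1 := gg_one hx
  have a1 : (fun i => L i - x i - (-1) * log (x i)) =O[l] fun _ => (1 : ℝ) :=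
    ((hL.trans i1).sub (g1.const_mul_left (1 / 2))).congr_left fun _ => by ring
  have a2 := log_exp1 hx a1
  have a3 : (fun i => 5 * m i + log (L i + log (L i) + 2 * m i) - log (x i) - 4 * gg (x i)) =O[l]
      fun i => (x i)⁻¹ :=
    ((hq.sub (hL.const_mul_left 2)).sub (a2.const_mul_left 2)).congr'
      (hm.mono fun i hi => by simp only [hi.2]; ring) EventuallyEq.rfl
  have a4 : Tendsto (fun i => L i + log (L i) - x i) l (𝓝 0) := by
    have := ((hL.add a2).trans_tendsto hx.inv_tendsto_atTop).sub ((gg_tend hx).const_mul (3 / 2))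
    rw [mul_zero, sub_zero] at this
    exact this.congr fun _ => by ring
  have a5 : Tendsto (fun i => 5 * m i + log (L i + log (L i) + 2 * m i) - log (x i)) l (𝓝 0) := by
    have := (a3.trans_tendsto hx.inv_tendsto_atTop).add ((gg_tend hx).const_mul 4)
    rw [mul_zero, add_zero] at this
    exact this.congr fun _ => by ring
  have a6 : m =O[l] fun _ => (1 : ℝ) := by
    refine IsBigO.of_bound 1 ?_
    filter_upwards [hm, a4.abs.eventually_le_const (show |0| < (1 : ℝ) by simp),
      a5.abs.eventually_le_const (show |0| < (1 : ℝ) by simp), hx.eventually_gt_atTop 0]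
      with i h1 h2 h3 h4
    rw [abs_le] at h2 h3
    rw [norm_one, mul_one, Real.norm_eq_abs, abs_le]
    constructor
    · by_contra c
      linarith [log_le_log h1.1 (show _ ≤ x i by linarith)]
    · by_contra c
      linarith [log_le_log h4 (show _ ≤ L i + log (L i) + 2 * m i by linarith)]
  have a7 := log_exp1 hx (u := fun i => L i + log (L i) + 2 * m i) (c := 0)
    (((a4.isBigO_one ℝ).add (a6.const_mul_left 2)).congr_left fun _ => by ring)
  have a8 : (fun i => m i - 4 / 5 * gg (x i)) =O[l] fun i => (x i)⁻¹ :=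
    ((a3.sub a7).const_mul_left (1 / 5)).congr_left fun _ => by ring
  have key : ∀ (v : ι → ℝ) (c : ℝ), ((fun i => v i - c * gg (x i)) =O[l] fun i => (x i)⁻¹) →
      (fun i => exp (v i) - 1 - c * gg (x i)) =O[l] fun i => (x i)⁻¹ := fun v c h => by
    have b : v =O[l] fun i => gg (x i) := ((h.trans (inv_gg hx)).add
      ((isBigO_refl _ l).const_mul_left c)).congr_left fun _ => by ring
    exact ((((exp_sub (b.trans_tendsto (gg_tend hx))).trans (b.pow 2)).trans (gg_sq hx)).add
      h).congr_left fun _ => by ring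
  have a9 := ((key t 1 (ht.congr_left fun _ => by ring)).sub (key m _ a8)).sub
    ((gg_near hx (near_of hx a1)).const_mul_left (1 / 5))
  refine (a9.mul (near_equiv hx (near_of hx a1)).isBigO).congr' ?_ ?_
  · filter_upwards [(near_top hx (near_of hx a1)).eventually_gt_atTop 0] with i h
    simp only [gg]
    field_simp
    ring
  · filter_upwards [hx.eventually_gt_atTop 0] with i h
    exact inv_mul_cancel₀ h.ne'

end Pool.Agent.P.MP_204fa9_nt
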