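import Mathlib

/-! Sums with slowly varying weights, periodic sums and a discrete Poisson equation. -/

namespace Pool.Agent.P.MP_204fa9_nt

open Finset Real Filter Asymptotics

theorem inv_sub_le {a b : ℝ} (h : 1 / 2 ≤ a) (hb : a ≤ b) :
    1 / a - 1 / b ≤ (b - a) * (1 + 2 * (b - a)) / b ^ 2 := by
  have a0 : 0 < a := by linarith
  have b0 : 0 < b := by linarith
  rw [div_sub_div _ _ a0.ne' b0.ne', div_le_div_iff₀ (by positivity) (by positivity)]
  have c : 0 ≤ (b - a) * b * ((b - a) * (2 * a - 1)) := by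
    have := sub_nonneg.2 hb
    have : 0 ≤ 2 * a - 1 := by linarith
    positivity
  nlinarith

theorem poly_le {u r β γ : ℝ} (h0 : 0 ≤ u) (hβ : 0 ≤ β) (hγ : 0 ≤ γ) (hr : 1 ≤ r)
    (h : u ≤ β * log r + γ) : u * (1 + 2 * u) ≤ (4 * β + γ) * (1 + 2 * (4 * β + γ)) * √r := by
  have a1 : 1 ≤ √r := one_le_sqrt.2 hr
  have a2 : 1 ≤ √√r := one_le_sqrt.2 a1
  have a3 : log r = 4 * log √√r := by
    rw [log_sqrt (by linarith), log_sqrt (by linarith)]; ring
  have a4 := log_le_sub_one_of_pos (show 0 < √√r by linarith)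
  have a5 : √√r * √√r = √r := mul_self_sqrt (by linarith)
  have a6 : u ≤ (4 * β + γ) * √√r := by nlinarith
  generalize 4 * β + γ = D at *
  have a7 : 0 ≤ D := by
    by_contra c
    nlinarith
  rw [← a5]
  generalize √√r = s at *
  have a8 : u * (1 + 2 * u) ≤ D * s * (s + 2 * (D * s)) :=
    mul_le_mul a6 (by linarith) (by linarith) (by positivity)
  nlinarith

theorem sum_inv_sqrt (n : ℕ) : ∑ m ∈ range (n + 1), 1 / √(m : ℝ) ≤ 2 * √(n : ℝ) := by
  induction n with
  | zero => simp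
  | succ n ih =>
    rw [sum_range_succ]
    have a : 0 < √((n + 1 : ℕ) : ℝ) := by positivity
    have b : √((n + 1 : ℕ) : ℝ) ^ 2 = n + 1 := by rw [sq_sqrt (by positivity)]; push_cast; rfl
    have c : √(n : ℝ) ^ 2 = n := sq_sqrt (by positivity)
    have d : 1 / √((n + 1 : ℕ) : ℝ) ≤ 2 * √((n + 1 : ℕ) : ℝ) - 2 * √(n : ℝ) := by
      rw [div_le_iff₀ a]
      nlinarith [sq_nonneg (√((n + 1 : ℕ) : ℝ) - √(n : ℝ))]
    linarith

theorem sum_sqrt_div (n : ℕ) : ∑ m ∈ range n, √((n : ℝ) / m) ≤ 2 * n := by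
  have a := mul_le_mul_of_nonneg_left (sum_inv_sqrt n) (sqrt_nonneg n)
  rw [mul_sum, sum_range_succ, mul_left_comm, mul_self_sqrt (by positivity)] at a
  refine le_trans (le_of_eq (sum_congr rfl fun m _ => ?_)) (le_trans (le_add_of_nonneg_right ?_) a)
  · rw [sqrt_div (by positivity), mul_one_div]
  · positivity

theorem wsum {w g e : ℕ → ℝ} {κ β γ : ℝ} {a : ℕ} (ha : 1 ≤ a) (hβ : 0 ≤ β) (hγ : 0 ≤ γ)
    (hg : ∀ m, |g m| ≤ 1) (he : ∀ m, |e m| ≤ κ) (h1 : ∀ m, a ≤ m → g m = e m / w m)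
    (h2 : ∀ m n, a ≤ m → m ≤ n → 1 / 2 ≤ w m ∧ w m ≤ w n ∧ w n ≤ w m + β * log (n / m) + γ) :
    (fun n => ∑ m ∈ range n, |g m - e m / w n|) =O[atTop] fun n => n / w n ^ 2 := by
  have k0 : 0 ≤ κ := (abs_nonneg _).trans (he 0)
  have r1 : ∀ m n : ℕ, a ≤ m → m ≤ n → (1 : ℝ) ≤ n / m := fun m n b c =>
    (one_le_div (Nat.cast_pos.2 (by omega))).2 (Nat.cast_le.2 c)
  set C := (4 * β + γ) * (1 + 2 * (4 * β + γ))
  have wa := (h2 a a le_rfl le_rfl).1
  set D := (4 * β + (γ + w a)) * (1 + 2 * (4 * β + (γ + w a)))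
  have C0 : 0 ≤ C := by positivity
  refine IsBigO.of_bound (a * (1 + 2 * κ) * D + κ * C * 2) ((eventually_ge_atTop a).mono fun n hn => ?_)
  obtain ⟨-, b1, b2⟩ := h2 a n le_rfl hn
  have w0 : 0 < w n := by linarith
  have n1 : (1 : ℝ) ≤ n := by exact_mod_cast ha.trans hn
  have b3 : 1 ≤ D * (n / w n ^ 2) := by
    have c1 := poly_le w0.le hβ (show 0 ≤ γ + w a by linarith) (r1 a n le_rfl hn) (by linarith)
    have c2 : √((n : ℝ) / a) ≤ n := sqrt_le_iff.2 ⟨by linarith,
      (div_le_self (by linarith) (by exact_mod_cast ha)).trans (by nlinarith)⟩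
    have c3 : 0 ≤ D := by
      have : 0 ≤ w a := by linarith
      positivity
    rw [← mul_div_assoc, one_le_div (by positivity)]
    nlinarith [mul_le_mul_of_nonneg_left c2 c3]
  have b4 : ∀ m ∈ range n, |g m - e m / w n| ≤
      (if m < a then 1 + 2 * κ else 0) + κ * C / w n ^ 2 * √((n : ℝ) / m) := fun m hm => by
    have c0 : 0 ≤ κ * C / w n ^ 2 * √((n : ℝ) / m) := by positivity
    split_ifs with c
    · refine (abs_sub _ _).trans (le_add_of_le_of_nonneg (add_le_add (hg m) ?_) c0)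
      rw [abs_div, abs_of_pos w0, div_le_iff₀ w0]
      nlinarith [he m]
    · obtain ⟨d1, d2, d3⟩ := h2 m n (by omega) (mem_range.1 hm).le
      have d4 := poly_le (sub_nonneg.2 d2) hβ hγ (r1 m n (by omega) (mem_range.1 hm).le)
        (by linarith)
      have d5 : 0 ≤ 1 / w m - 1 / w n := sub_nonneg.2 (one_div_le_one_div_of_le (by linarith) d2)
      rw [h1 m (by omega), zero_add, div_eq_mul_one_div, div_eq_mul_one_div (e m) (w n), ← mul_sub,
        abs_mul, abs_of_nonneg d5]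
      refine (mul_le_mul (he m) ((inv_sub_le d1 d2).trans
        (div_le_div_of_nonneg_right d4 (by positivity))) d5 k0).trans_eq ?_
      ring
  rw [Real.norm_of_nonneg (sum_nonneg fun _ _ => abs_nonneg _), Real.norm_of_nonneg (by positivity)]
  refine (sum_le_sum b4).trans ?_
  rw [sum_add_distrib, ← mul_sum, ← sum_filter, sum_const, nsmul_eq_mul, add_mul]
  refine add_le_add ?_ ((mul_le_mul_of_nonneg_left (sum_sqrt_div n) (by positivity)).trans_eq
    (by ring))
  have b5 : (((range n).filter fun m => m < a).card : ℝ) ≤ a := by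
    exact_mod_cast (card_le_card fun m hm => mem_range.2 (mem_filter.1 hm).2).trans_eq (card_range a)
  refine (mul_le_mul_of_nonneg_right b5 (by positivity)).trans ?_
  rw [mul_assoc _ D]
  exact le_mul_of_one_le_right (by positivity) b3

variable {W : ℕ} [NeZero W]

theorem sum_zmod (F : ZMod W → ℝ) : ∑ j ∈ range W, F j = ∑ x, F x :=
  sum_nbij' (fun j => (j : ZMod W)) ZMod.val (fun _ _ => mem_univ _)
    (fun x _ => mem_range.2 (ZMod.val_lt x)) (fun _ h => ZMod.val_cast_of_lt (mem_range.1 h))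
    (fun x _ => ZMod.natCast_zmod_val x) fun _ _ => rfl

theorem prim_bdd (H : ZMod W → ZMod W → ℝ) (h : ∀ s, ∑ l, H s l = 0) :
    ∃ B, ∀ (s : ZMod W) (y : ℕ), |∑ j ∈ range y, H s j| ≤ B := by
  refine ⟨∑ s, ∑ j ∈ range W, |H s j|, fun s y => ?_⟩
  have a : Function.Periodic (fun y : ℕ => ∑ j ∈ range y, H s j) W := fun y => by
    simp only [sum_range_add, Nat.cast_add]
    have e : ∑ x, H s ((y : ZMod W) + x) = 0 :=
      (Equiv.sum_comp (Equiv.addLeft (y : ZMod W)) (H s)).trans (h s)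
    rw [sum_zmod fun x => H s ((y : ZMod W) + x), e, add_zero]
  rw [← a.map_mod_nat y]
  refine (abs_sum_le_sum_abs _ _).trans (le_trans ?_ (single_le_sum
    (f := fun s => ∑ j ∈ range W, |H s j|) (fun _ _ => sum_nonneg fun _ _ => abs_nonneg _)
    (mem_univ s)))
  exact sum_le_sum_of_subset_of_nonneg (range_subset_range.2 (Nat.mod_lt y (NeZero.pos W)).le)
    fun _ _ _ => abs_nonneg _

theorem poisson {e h : ZMod W → ℝ} (e0 : ∀ u, 0 ≤ e u) (e1 : 0 < e 1) (hh : ∑ x, h x = 0) :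
    ∃ G : ZMod W → ℝ, ∀ x, ∑ u, e u * (G x - G (x + u)) = h x := by
  let T : (ZMod W → ℝ) →ₗ[ℝ] (ZMod W → ℝ) :=
    { toFun := fun g x => ∑ u, e u * (g x - g (x + u)) + ∑ y, g y
      map_add' := fun g g' => funext fun x => by
        simp only [Pi.add_apply, ← sum_add_distrib]
        exact sum_congr rfl fun u _ => by ring
      map_smul' := fun c g => funext fun x => by
        simp only [Pi.smul_apply, smul_eq_mul, RingHom.id_apply, mul_add, mul_sum]
        exact congrArg (· + _) (sum_congr rfl fun u _ => by ring) }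
  have W0 : (Fintype.card (ZMod W) : ℝ) ≠ 0 := Nat.cast_ne_zero.2 Fintype.card_ne_zero
  have a1 : ∀ g, ∑ x, T g x = 0 → ∑ y, g y = 0 := fun g hg => by
    have b : ∑ x, ∑ u, e u * (g x - g (x + u)) = 0 := by
      rw [sum_comm]
      refine sum_eq_zero fun u _ => ?_
      rw [← mul_sum, sum_sub_distrib,
        show ∑ x, g (x + u) = ∑ x, g x from Equiv.sum_comp (Equiv.addRight u) g, sub_self, mul_zero]
    change ∑ x, (∑ u, e u * (g x - g (x + u)) + ∑ y, g y) = 0 at hg
    rw [sum_add_distrib, b, zero_add, sum_const, nsmul_eq_mul, card_univ] at hg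
    exact (mul_eq_zero.1 hg).resolve_left W0
  have a2 : Function.Injective T := (injective_iff_map_eq_zero T).2 fun g hg => by
    have b1 := a1 g (by simp [hg])
    have b2 : ∀ x, ∑ u, e u * (g x - g (x + u)) = 0 := fun x => by
      have := congrFun hg x
      change ∑ u, e u * (g x - g (x + u)) + ∑ y, g y = 0 at this
      rwa [b1, add_zero] at this
    obtain ⟨x, -, hx⟩ := exists_max_image univ g univ_nonempty
    have b3 : ∀ n : ℕ, g (x + n) = g x := fun n => by
      induction n with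
      | zero => simp
      | succ n ih =>
        have c := (sum_eq_zero_iff_of_nonneg fun u _ => mul_nonneg (e0 u)
          (sub_nonneg.2 (ih ▸ hx _ (mem_univ _)))).1 (b2 (x + n)) 1 (mem_univ _)
        rw [Nat.cast_succ, ← add_assoc, ← ih]
        exact (sub_eq_zero.1 ((mul_eq_zero.1 c).resolve_left e1.ne')).symm
    have b4 : ∀ y, g y = g x := fun y => by
      rw [← b3 (y - x).val, ZMod.natCast_zmod_val, add_sub_cancel]
    rw [sum_congr rfl fun y _ => b4 y, sum_const, nsmul_eq_mul, card_univ] at b1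
    exact funext fun y => (b4 y).trans ((mul_eq_zero.1 b1).resolve_left W0)
  obtain ⟨G, hG⟩ := LinearMap.injective_iff_surjective.1 a2 h
  refine ⟨G, fun x => ?_⟩
  have b := congrFun hG x
  change ∑ u, e u * (G x - G (x + u)) + ∑ y, G y = h x at b
  rwa [a1 G (by rw [hG, hh]), add_zero] at b

end Pool.Agent.P.MP_204fa9_nt
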