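import Pool.Agent.P.MP_204fa9_nt.Mart
import Pool.Agent.P.MP_204fa9_nt.Sum
import Pool.Agent.P.MP_204fa9_nt.Asy

/-! The counting function, the sum function and the residues of the sums for a typical set. -/

namespace Pool.Agent.P.MP_204fa9_nt

open Finset Real Filter Asymptotics Topology

open Classical in
/-- the normalised indicator of the units -/
noncomputable def ee (W : ℕ) (x : ZMod W) : ℝ := if IsUnit x then (W : ℝ) / W.totient else 0

/-- the size of the errors -/
noncomputable def hh (y : ℕ) : ℝ := y / log y ^ 2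

/-- the sum of the elements below `y` -/
noncomputable def sg (A : Set ℕ) (y : ℕ) : ℕ := ∑ l ∈ cut A y, l

/-- the bound for compensated sums -/
def Mb (p : ℕ → ℝ) (z : ℕ → ℕ → Set ℕ → ℝ) (A : Set ℕ) : Prop :=
  ∀ᶠ y : ℕ in atTop, |mg p (z y) y A| ≤ qv (z y) y A / log y ^ 4 + 2 * log y ^ 5

theorem lg_top : Tendsto (fun y : ℕ => log y) atTop atTop :=
  tendsto_log_atTop.comp tendsto_natCast_atTop_atTop

theorem pow_hh : (fun y : ℕ => log y ^ 5) =O[atTop] hh := by
  have a := ((isLittleO_pow_log_id_atTop (n := 7)).comp_tendsto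
    tendsto_natCast_atTop_atTop).isBigO.mul (isBigO_refl (fun y : ℕ => (log y ^ 2)⁻¹) atTop)
  refine a.congr' ((lg_top.eventually_gt_atTop 0).mono fun y h => ?_) (Eventually.of_forall fun y => ?_)
  · simp only [Function.comp]; field_simp
  · simp only [Function.comp, id, hh, div_eq_mul_inv]

theorem one_hh : (fun _ => (1 : ℝ)) =O[atTop] hh :=
  (((one_log (x := fun y : ℕ => (y : ℝ)) tendsto_natCast_atTop_atTop).pow 5).congr_left
    fun _ => one_pow 5).trans pow_hh

theorem div_hh {f : ℕ → ℝ} (h : f =O[atTop] fun _ => (1 : ℝ)) :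
    (fun y : ℕ => f y / log y) =O[atTop] hh :=
  ((h.mul (inv_one' lg_top)).congr_right fun _ => one_mul _).trans one_hh

variable {W : ℕ}

theorem ee_cast (l : ℕ) : ee W l = if l.Coprime W then (W : ℝ) / W.totient else 0 := by
  simp only [ee, ZMod.isUnit_iff_coprime]

theorem ee_nonneg (x : ZMod W) : 0 ≤ ee W x := by
  unfold ee; split_ifs <;> positivity

theorem ee_abs (x : ZMod W) : |ee W x| ≤ (W : ℝ) / W.totient := by
  rw [abs_of_nonneg (ee_nonneg x)]
  unfold ee; split_ifs
  · exact le_rfl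
  · positivity

variable [NeZero W]

theorem ee_one : 0 < ee W 1 := by
  have := NeZero.pos W
  have := Nat.totient_pos.2 this
  rw [ee, if_pos isUnit_one]; positivity

theorem ee_sum : ∑ x, ee W x = W := by
  have := Nat.totient_pos.2 (NeZero.pos W)
  rw [← sum_zmod, sum_congr rfl fun j _ => ee_cast j, ← sum_filter, sum_const, nsmul_eq_mul]
  simp only [Nat.coprime_comm (m := W), ← Nat.totient_eq_card_coprime]
  field_simp

theorem ee_sum' : ∑ x, (ee W x - 1) = 0 := by
  rw [sum_sub_distrib, ee_sum, sum_const, card_univ, ZMod.card]; simp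

theorem ee_prim : ∃ B, ∀ y : ℕ, |∑ j ∈ range y, (ee W j - 1)| ≤ B := by
  obtain ⟨B, hB⟩ := prim_bdd (fun _ x => ee W x - 1) fun _ => ee_sum'
  exact ⟨B, hB 0⟩

variable {p : ℕ → ℝ} {A : Set ℕ}

omit [NeZero W] in
theorem gen (h0 : ∀ l, |p l| ≤ 1) (hp : ∀ᶠ l : ℕ in atTop, p l = ee W l / log l)
    {z : ℕ → ℕ → Set ℕ → ℝ} (hb : ∀ y v A, |z y v A| ≤ 1) (hm : Mb p z A) :
    (fun y => ∑ l ∈ cut A y, z y l A - (∑ l ∈ range y, ee W l * z y l A) / log y) =O[atTop] hh := by
  obtain ⟨a, ha⟩ := eventually_atTop.1 (hp.and (eventually_ge_atTop 2))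
  have a1 := wsum (w := fun m : ℕ => log m) (e := fun m : ℕ => ee W m) (β := 1) (γ := 0) (a := a)
    (by have := (ha a le_rfl).2; omega) zero_le_one le_rfl h0 (fun _ => ee_abs _)
    (fun m h => (ha m h).1) fun m n b c => by
      have d : (2 : ℝ) ≤ m := by exact_mod_cast (ha m b).2
      have e : (m : ℝ) ≤ n := Nat.cast_le.2 c
      refine ⟨by linarith [log_le_log two_pos d, log_two_gt_d9], log_le_log (by linarith) e, ?_⟩
      rw [log_div (by linarith) (by linarith)]
      linarith
  have a2 : (fun y => ∑ l ∈ range y, p l * z y l A - (∑ l ∈ range y, ee W l * z y l A) / log y)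
      =O[atTop] fun y => ∑ m ∈ range y, |p m - ee W m / log y| :=
    isBigO_of_le _ fun y => by
      rw [sum_div, ← sum_sub_distrib, Real.norm_eq_abs, Real.norm_eq_abs]
      refine ((abs_sum_le_sum_abs _ _).trans (sum_le_sum fun m _ => ?_)).trans (le_abs_self _)
      rw [mul_div_right_comm, ← sub_mul, abs_mul]
      exact mul_le_of_le_one_right (abs_nonneg _) (hb _ _ _)
  have a3 : (fun y => mg p (z y) y A) =O[atTop] fun y => hh y + 2 * log y ^ 5 := by
    refine IsBigO.of_bound' ?_
    filter_upwards [hm, lg_top.eventually_ge_atTop 1] with y h1 h2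
    refine (h1.trans (add_le_add_left ?_ _)).trans (le_abs_self _)
    refine div_le_div₀ (Nat.cast_nonneg y) ?_ (by positivity) (pow_le_pow_right₀ h2 (by norm_num))
    refine (sum_le_card_nsmul _ _ 1 fun l _ => (sq_le_one_iff_abs_le_one _).2 (hb _ _ _)).trans ?_
    simp
  exact ((a3.trans ((isBigO_refl _ _).add (pow_hh.const_mul_left 2))).add
    (a2.trans a1)).congr_left fun y => by simp only [mg]; ring

theorem cnt_est (h0 : ∀ l, |p l| ≤ 1) (hp : ∀ᶠ l : ℕ in atTop, p l = ee W l / log l)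
    (hm : Mb p (fun _ _ _ => 1) A) :
    (fun y => ((cut A y).card : ℝ) - y / log y) =O[atTop] hh := by
  obtain ⟨B, hB⟩ := ee_prim (W := W)
  refine ((gen h0 hp (fun _ _ _ => abs_one.le) hm).add (div_hh (f := fun y => ∑ j ∈ range y,
    (ee W j - 1)) (IsBigO.of_bound B (Eventually.of_forall fun y => by
      simpa using hB y)))).congr_left fun y => ?_
  simp only [sum_const, nsmul_eq_mul, mul_one, sum_sub_distrib, card_range]
  ring

/-- the linear weights -/
noncomputable def zl (y v : ℕ) (_ : Set ℕ) : ℝ := (min v y : ℕ) / y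

theorem zl_abs (y v : ℕ) (A : Set ℕ) : |zl y v A| ≤ 1 := by
  rw [zl, abs_of_nonneg (by positivity)]
  exact div_le_one_of_le₀ (Nat.cast_le.2 (min_le_right _ _)) (Nat.cast_nonneg y)

theorem sg_est (h0 : ∀ l, |p l| ≤ 1) (hp : ∀ᶠ l : ℕ in atTop, p l = ee W l / log l)
    (hm : Mb p zl A) : (fun y => (sg A y : ℝ) / y - y / (2 * log y)) =O[atTop] hh := by
  obtain ⟨B, hB⟩ := ee_prim (W := W)
  have a1 : ∀ y : ℕ, |∑ j ∈ range y, ee W j * j - (y : ℝ) * (y - 1) / 2 -
      y * ∑ j ∈ range y, (ee W j - 1)| ≤ B * y := fun y => by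
    induction y with
    | zero => simp
    | succ y ih =>
      have b := hB (y + 1)
      rw [abs_le] at *
      simp only [sum_range_succ, Nat.cast_succ] at *
      constructor <;> linarith [ih.1, ih.2, b.1, b.2]
  have a2 : (fun y : ℕ => (∑ j ∈ range y, ee W j * j) / y - (y : ℝ) / 2) =O[atTop]
      fun _ => (1 : ℝ) := by
    refine IsBigO.of_bound (2 * B + 1 / 2) ((eventually_gt_atTop 0).mono fun y hy => ?_)
    have y0 : (0 : ℝ) < y := Nat.cast_pos.2 hy
    have b1 := abs_le.1 (a1 y)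
    have b2 := abs_le.1 (hB y)
    have b3 := mul_le_mul_of_nonneg_left b2.1 y0.le
    have b4 := mul_le_mul_of_nonneg_left b2.2 y0.le
    rw [norm_one, mul_one, Real.norm_eq_abs, abs_le, le_sub_iff_add_le, sub_le_iff_le_add,
      le_div_iff₀ y0, div_le_iff₀ y0]
    constructor <;> linarith [b1.1, b1.2]
  refine ((gen h0 hp zl_abs hm).add (div_hh a2)).congr_left fun y => ?_
  have e : ∀ l < y, zl y l A = l / y := fun l hl => by rw [zl, min_eq_left hl.le]
  rw [sum_congr rfl fun l hl => e l (mem_cut.1 hl).1,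
    sum_congr rfl fun (l : ℕ) hl => congrArg (ee W l * ·) (e l (mem_range.1 hl)), sg, Nat.cast_sum]
  simp only [← mul_div_assoc, ← sum_div]
  ring

theorem sg_pos {y : ℕ} (h : y ∈ A) : sg A (y + 1) = sg A y + y := sum_cut_pos h _

theorem sg_neg {y : ℕ} (h : y ∉ A) : sg A (y + 1) = sg A y := by rw [sg, cut_neg h, sg]

theorem card_pos' {y : ℕ} (h : y ∈ A) : (cut A (y + 1)).card = (cut A y).card + 1 := by
  rw [cut_pos h, card_insert_of_notMem (not_mem_cut A y)]

/-- the weights that come from a solution of the Poisson equation -/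
noncomputable def zp (G : ZMod W → ℝ) (D : ℝ) (_ v : ℕ) (A : Set ℕ) : ℝ :=
  (G (sg A v + v) - G (sg A v) + (ee W (sg A v) - 1)) / D

theorem exists_G : ∃ (G : ZMod W → ℝ) (D : ℝ), 0 < D ∧ (∀ y v A, |zp G D y v A| ≤ 1) ∧
    ∀ s, ∑ l, ee W l * (G (s + l) - G s + (ee W s - 1)) = 0 := by
  obtain ⟨G, hG⟩ := poisson (h := fun x => W * (ee W x - 1)) ee_nonneg ee_one
    (by rw [← mul_sum, ee_sum', mul_zero])
  have a : 0 < ‖G‖ + ‖G‖ + ((W : ℝ) / W.totient + 1) := by positivity
  refine ⟨G, _, a, fun y v A => ?_, fun s => ?_⟩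
  · rw [zp, abs_div, abs_of_pos a, div_le_one a]
    exact (abs_add_le _ _).trans (add_le_add ((abs_sub _ _).trans (add_le_add (norm_le_pi_norm G _)
      (norm_le_pi_norm G _))) ((abs_sub _ _).trans (add_le_add (ee_abs _) abs_one.le)))
  · rw [← sub_self (W * (ee W s - 1))]
    nth_rw 2 [← hG s]
    rw [← ee_sum (W := W), sum_mul, ← sum_sub_distrib]
    exact sum_congr rfl fun u _ => by ring

theorem res_est (h0 : ∀ l, |p l| ≤ 1) (hp : ∀ᶠ l : ℕ in atTop, p l = ee W l / log l)
    (hm : Mb p (fun _ _ _ => 1) A) {G : ZMod W → ℝ} {D : ℝ} (hD : 0 < D)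
    (hb : ∀ y v A, |zp G D y v A| ≤ 1)
    (hG : ∀ s, ∑ l, ee W l * (G (s + l) - G s + (ee W s - 1)) = 0) (hm' : Mb p (zp G D) A) :
    (fun y => ∑ l ∈ cut A y, ee W (sg A l) - (cut A y).card) =O[atTop] hh := by
  obtain ⟨B, hB⟩ := prim_bdd _ hG
  set H := fun s l : ZMod W => ee W l * (G (s + l) - G s + (ee W s - 1)) with hH
  have a1 : ∀ y, |∑ l ∈ range y, H (sg A l) l - ∑ l ∈ range y, H (sg A y) l| ≤
      2 * B * (cut A y).card := fun y => by
    induction y with
    | zero => simp [cut]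
    | succ y ih =>
      by_cases c : y ∈ A
      · have b1 := abs_le.1 (hB (sg A y) (y + 1))
        have b2 := abs_le.1 (hB (sg A (y + 1)) (y + 1))
        rw [sum_range_succ] at b1
        rw [abs_le] at ih ⊢
        rw [sum_range_succ, card_pos' c, Nat.cast_succ]
        constructor <;> linarith [ih.1, ih.2, b1.1, b1.2, b2.1, b2.2]
      · rw [sum_range_succ, sum_range_succ, sg_neg c, cut_neg c, add_sub_add_right_eq_sub]
        exact ih
  have a2 : ∀ y, ∑ l ∈ cut A y, (G (sg A l + l) - G (sg A l)) = G (sg A y) - G 0 := fun y => by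
    induction y with
    | zero => simp [cut, sg]
    | succ y ih =>
      by_cases c : y ∈ A
      · rw [sum_cut_pos c, ih, sg_pos c, Nat.cast_add]; ring
      · rw [cut_neg c, sg_neg c, ih]
  have a3 : (fun y => ((cut A y).card : ℝ) / log y) =O[atTop] hh :=
    (((((cnt_est h0 hp hm).mul (inv_one' lg_top)).congr_right fun _ => mul_one _)).add
      (isBigO_refl _ _)).congr_left fun y => by simp only [hh]; ring
  have a4 : (fun y => (∑ l ∈ range y, H (sg A l) l) / log y) =O[atTop] hh := by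
    have b1 : (fun y => ∑ l ∈ range y, H (sg A l) l - ∑ l ∈ range y, H (sg A y) l) =O[atTop]
        fun y => ((cut A y).card : ℝ) := IsBigO.of_bound (2 * B) (Eventually.of_forall fun y => by
      simpa using a1 y)
    exact (((b1.mul (isBigO_refl (fun y : ℕ => (log y)⁻¹) _)).trans a3).add
      (div_hh (f := fun y => ∑ l ∈ range y, H (sg A y) l) (IsBigO.of_bound B
        (Eventually.of_forall fun y => by simpa using hB _ y)))).congr_left fun _ => by ring
  have a5 : (fun y => G (sg A y) - G 0) =O[atTop] hh := (IsBigO.of_bound (‖G‖ + ‖G‖)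
    (Eventually.of_forall fun y => by
      simpa using (abs_sub _ _).trans (add_le_add (norm_le_pi_norm G _)
        (norm_le_pi_norm G 0)))).trans one_hh
  refine ((((gen h0 hp hb hm').const_mul_left D).add a4).sub a5).congr_left fun y => ?_
  rw [← a2]
  simp only [zp, hH, ← mul_div_assoc, ← sum_div, sum_add_distrib, sum_sub_distrib (f := fun l =>
    ee W (sg A l)), sum_const, nsmul_eq_mul, mul_one]
  field_simp
  ring

end Pool.Agent.P.MP_204fa9_nt
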