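import Pool.Agent.P.MP_204fa9_nt.Idx

/-! Expansions for the partial sums and for the rank of a partial sum that lies in the set. -/

namespace Pool.Agent.P.MP_204fa9_nt

open Finset Real Filter Asymptotics Topology

theorem top_of_log {X : ℕ → ℝ} (h0 : ∀ i, 0 ≤ X i) (h : Tendsto (fun i => log (X i)) atTop atTop) :
    Tendsto X atTop atTop := tendsto_atTop_mono (fun i => log_le_self (h0 i)) h

variable {W : ℕ} {p : ℕ → ℝ} {A : Set ℕ}

theorem log_cnt (hc : (fun y => ((cut A y).card : ℝ) - y / log y) =O[atTop] hh) :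
    (fun y => log (cut A y).card - (log y - log (log y))) =O[atTop] fun y : ℕ => (log y)⁻¹ := by
  have a : ∀ᶠ y : ℕ in atTop, (0 : ℝ) < y ∧ 0 < log y :=
    (tendsto_natCast_atTop_atTop.eventually_gt_atTop 0).and (lg_top.eventually_gt_atTop 0)
  refine (log_rel lg_top (a.mono fun y h => div_pos h.1 h.2)
    (hc.congr_right fun y => by simp only [hh]; ring)).congr' (a.mono fun y h => ?_) EventuallyEq.rfl
  simp only [log_div h.1.ne' h.2.ne']

theorem log_sg (hs : (fun y => (sg A y : ℝ) / y - y / (2 * log y)) =O[atTop] hh) :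
    (fun y => log (sg A y) - (2 * log y - log 2 - log (log y))) =O[atTop]
      fun y : ℕ => (log y)⁻¹ := by
  have a : ∀ᶠ y : ℕ in atTop, (0 : ℝ) < y ∧ 0 < log y :=
    (tendsto_natCast_atTop_atTop.eventually_gt_atTop 0).and (lg_top.eventually_gt_atTop 0)
  refine (log_rel lg_top (X := fun y => sg A y) (Y := fun y : ℕ => (y : ℝ) ^ 2 / (2 * log y))
    (a.mono fun y h => by have := h.1; have := h.2; positivity)
    (((hs.mul (isBigO_refl (fun y : ℕ => (y : ℝ)) _)).const_mul_right (c := 1 / 2) (by norm_num)).congr'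
      (a.mono fun y h => ?_) (Eventually.of_forall fun y => ?_))).congr'
      (a.mono fun y h => ?_) EventuallyEq.rfl
  · have := h.1.ne'
    simp only
    field_simp
  · simp only [hh]; ring
  · have := h.1.ne'
    have := h.2.ne'
    simp only
    rw [log_div (by positivity) (by positivity), log_mul two_ne_zero this, log_pow]
    push_cast; ring

theorem A_inf (hc : (fun y => ((cut A y).card : ℝ) - y / log y) =O[atTop] hh) : A.Infinite :=
  inf_of (f := id) (top_of_log (fun _ => Nat.cast_nonneg _) (near_top lg_top (near_of lg_top (c := -1)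
    (((log_cnt hc).trans (inv_one' lg_top)).congr_left fun _ => by simp only [id]; ring))))

theorem hh_cnt (hc : (fun y => ((cut A y).card : ℝ) - y / log y) =O[atTop] hh) :
    hh =O[atTop] fun y => ((cut A y).card : ℝ) * (log y)⁻¹ := by
  have a : hh =o[atTop] fun y : ℕ => y / log y :=
    ((isBigO_refl (fun y : ℕ => y / log y) _).mul_isLittleO
      ((isLittleO_one_iff ℝ).2 lg_top.inv_tendsto_atTop)).congr
      (fun y => by simp only [hh, Pi.inv_apply]; ring) fun _ => mul_one _
  have b : (fun y => ((cut A y).card : ℝ)) ~[atTop] fun y : ℕ => y / log y := hc.trans_isLittleO a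
  exact (b.isBigO_symm.mul (isBigO_refl _ _)).congr_left fun y => by simp only [hh]; ring

theorem S_exp (hc : (fun y => ((cut A y).card : ℝ) - y / log y) =O[atTop] hh)
    (hs : (fun y => (sg A y : ℝ) / y - y / (2 * log y)) =O[atTop] hh)
    (hr : (fun y => ∑ l ∈ cut A y, ee W (sg A l) - (cut A y).card) =O[atTop] hh) :
    ((fun n : ℕ => log (ss A (2 * n)) - (log 2 + 2 * log n + log (log n) + gg (log n))) =O[atTop]
      fun n : ℕ => (log n)⁻¹) ∧
    (fun n : ℕ => ∑ j ∈ range (2 * n), ee W (ss A j) - 2 * n) =O[atTop]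
      fun n : ℕ => n * (log n)⁻¹ := by
  have hA := A_inf hc
  have hy : Tendsto (fun n => aa A (2 * n)) atTop atTop := (aa_mono hA).tendsto_atTop.comp
    (tendsto_id.const_mul_atTop' two_pos)
  have hx := lg_top.comp hy
  have b1 : (fun n : ℕ => log n - (log (aa A (2 * n)) - log (log (aa A (2 * n))) - log 2)) =O[atTop]
      fun n => (log (aa A (2 * n)))⁻¹ := by
    refine ((log_cnt hc).comp_tendsto hy).congr' ((eventually_gt_atTop 0).mono fun n hn => ?_)
      EventuallyEq.rfl
    simp only [Function.comp, card_aa hA, Nat.cast_mul, Nat.cast_ofNat]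
    rw [log_mul two_ne_zero (Nat.cast_ne_zero.2 hn.ne')]
    ring
  have b2 : (fun n : ℕ => log n - log (aa A (2 * n)) - (-1) * log (log (aa A (2 * n)))) =O[atTop]
      fun _ => (1 : ℝ) := ((b1.trans (inv_one' hx)).sub (cst (log 2))).congr_left fun _ => by ring
  have b5 := near_inv hx (near_of hx b2)
  refine ⟨((((((log_sg hs).comp_tendsto hy).sub (b1.const_mul_left 2)).sub (log_exp1 hx b2)).sub
    (gg_near hx (near_of hx b2))).trans b5).congr_left fun n => ?_,
    (((hr.trans (hh_cnt hc)).comp_tendsto hy).congr (fun n => ?_) fun n => ?_).trans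
      (((isBigO_refl (fun n : ℕ => (n : ℝ)) _).const_mul_left 2).mul b5)⟩
  · simp only [Function.comp, sg_aa hA]; ring
  · simp only [Function.comp, sum_aa hA, sg_aa hA, card_aa hA, Nat.cast_mul, Nat.cast_ofNat]
  · simp only [Function.comp, card_aa hA, Nat.cast_mul, Nat.cast_ofNat]

theorem K_exp (hW : Even W) (h0 : ∀ l, |p l| ≤ 1) (hp : ∀ᶠ l : ℕ in atTop, p l = ee W l / log l)
    (hA : A.Infinite) (h2 : 2 ∈ A) (ho : ∀ l ∈ A, l ≠ 2 → Odd l) (hu : Mb p zu A)
    (hS : (fun n : ℕ => log (ss A (2 * n)) - (log 2 + 2 * log n + log (log n) + gg (log n)))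
      =O[atTop] fun n : ℕ => (log n)⁻¹)
    (hr : (fun n : ℕ => ∑ j ∈ range (2 * n), ee W (ss A j) - 2 * n) =O[atTop]
      fun n : ℕ => n * (log n)⁻¹) :
    (fun n : ℕ => log ((cut (QQ A) (ss A (2 * n))).card + 1) -
      (log n - log (log n) - gg (log n) / 2)) =O[atTop] fun n : ℕ => (log n)⁻¹ := by
  have z0 : 0 ∉ A := fun h => by simpa using ho 0 h (by norm_num)
  have hy := (S_mono hA z0).tendsto_atTop
  set w : ℕ → ℝ := fun n => log (ss A (2 * n)) with hw
  have c0 : (fun n : ℕ => w n / 2 - log n - 1 / 2 * log (log n)) =O[atTop] fun _ => (1 : ℝ) :=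
    ((((hS.trans (inv_one' lg_top)).add (cst (log 2))).add (gg_one lg_top)).const_mul_left
      (1 / 2)).congr_left fun _ => by ring
  have c1 := near_equiv lg_top (near_of lg_top c0)
  have c2 : (fun n => (w n)⁻¹) =O[atTop] fun n : ℕ => (log n)⁻¹ :=
    (c1.inv.isBigO.const_mul_left (1 / 2)).congr_left fun _ => by simp only [Pi.inv_apply]; ring
  have c3 : (fun n : ℕ => n / w n ^ 2) =O[atTop] hh :=
    ((isBigO_refl (fun n : ℕ => (n : ℝ)) _).mul (c2.pow 2)).congr (fun _ => by ring)
      fun _ => by simp only [hh]; ring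
  have c4 : (fun n => w n ^ 5) =O[atTop] hh :=
    (((c1.isBigO.const_mul_left 2).congr_left fun _ => by ring).pow 5).trans pow_hh
  have c5 : ∀ n : ℕ, 1 ≤ n → log n ≤ w n := fun n hn =>
    log_le_log (Nat.cast_pos.2 hn) (Nat.cast_le.2 (S_mono hA z0).le_apply)
  obtain ⟨C, hC0, hC⟩ := c0.exists_nonneg
  obtain ⟨a, ha⟩ := eventually_atTop.1 (hC.bound.and ((lg_top.eventually_ge_atTop 1).and
    ((hy.eventually hp).and (eventually_ge_atTop 1))))
  have d1 := (wsum (w := w) (g := fun m => p (ss A (2 * m))) (e := fun m => ee W (ss A (2 * m)))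
    (β := 3) (γ := 4 * C) (a := a) (ha a le_rfl).2.2.2 (by norm_num) (by positivity)
    (fun _ => h0 _) (fun _ => ee_abs _) (fun m h => (ha m h).2.2.1) fun m n b c => by
      obtain ⟨e1, e2, -, e3⟩ := ha m b
      obtain ⟨e4, e5, -, -⟩ := ha n (b.trans c)
      have m0 : (0 : ℝ) < m := Nat.cast_pos.2 e3
      have m1 : (m : ℝ) ≤ n := Nat.cast_le.2 c
      have m2 := log_le_log m0 m1
      rw [norm_one, mul_one, Real.norm_eq_abs, abs_le] at e1 e4
      have e6 := log_le_sub_one_of_pos (show 0 < log n / log m by positivity)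
      rw [log_div (by positivity) (by positivity), div_sub_one (by positivity)] at e6
      have e7 := div_le_self (sub_nonneg.2 m2) e2
      refine ⟨by linarith [c5 m e3], log_le_log (Nat.cast_pos.2 (e3.trans (S_mono hA z0).le_apply))
        (Nat.cast_le.2 ((S_mono hA z0).monotone c)), ?_⟩
      rw [log_div (by linarith) m0.ne']
      linarith [e1.1, e4.2]).trans c3
  have d2 : (fun n => ∑ m ∈ Ico 1 n, (p (ss A (2 * m)) - ee W (ss A (2 * m)) / w n)) =O[atTop] hh :=
    (isBigO_of_le _ fun n => ((norm_sum_le _ _).trans (sum_le_sum_of_subset_of_nonneg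
      (fun m hm => mem_range.2 (mem_Ico.1 hm).2) fun _ _ _ => norm_nonneg _)).trans
      (le_abs_self _)).trans d1
  have d3 : (fun n => mg p (zu (ss A (2 * n))) (ss A (2 * n)) A) =O[atTop] hh := by
    refine (IsBigO.of_bound' ?_).trans (c3.add (c4.const_mul_left 2))
    filter_upwards [hy.eventually hu, eventually_ge_atTop a] with n h1 h3
    have h4 : 1 ≤ w n := (ha n h3).2.1.trans (c5 n (ha n h3).2.2.2)
    exact (h1.trans (add_le_add_left (div_le_div₀ (Nat.cast_nonneg n) (qv_zu hA z0 _ n)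
      (by positivity) (pow_le_pow_right₀ h4 (by norm_num))) _)).trans (le_abs_self _)
  have d4 : (fun n : ℕ => (∑ j ∈ range (2 * n), ee W (ss A j) - 2 * n) * (w n)⁻¹) =O[atTop] hh :=
    (hr.mul c2).congr_right fun _ => by simp only [hh]; ring
  have d5 : (fun n : ℕ => (ee W (ss A 0) + ee W (ss A 1)) * (w n)⁻¹) =O[atTop] hh :=
    ((c2.trans (inv_one' lg_top)).const_mul_left _).trans one_hh
  have d6 : hh =O[atTop] fun n : ℕ => n / (w n / 2) / log n :=
    (((isBigO_refl (fun n : ℕ => (n : ℝ)) _).mul c1.inv.isBigO_symm).mul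
      (isBigO_refl (fun n : ℕ => (log n)⁻¹) _)).congr
      (fun _ => by simp only [hh, Pi.inv_apply]; ring) fun _ => by simp only [Pi.inv_apply]; ring
  have d7 : ∀ᶠ n : ℕ in atTop, (0 : ℝ) < n ∧ 0 < w n / 2 :=
    (tendsto_natCast_atTop_atTop.eventually_gt_atTop 0).and
      ((near_top lg_top (near_of lg_top c0)).eventually_gt_atTop 0)
  have d8 := log_rel lg_top (X := fun n => (cut (QQ A) (ss A (2 * n))).card + 1)
    (d7.mono fun n h => div_pos h.1 h.2) ((((((d3.add d2).add d4).sub d5).add one_hh).congr'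
      ((eventually_ge_atTop 1).mono fun n hn => by
        simp only [mg, cut_zu hA z0, sum_zu hA z0, sum_par hA z0 hW h2 ho hn, sum_sub_distrib,
          ← sum_div]
        ring) EventuallyEq.rfl).trans d6)
  refine (d8.sub (log_exp1 lg_top c0)).congr' (d7.mono fun n h => ?_) EventuallyEq.rfl
  simp only [log_div h.1.ne' h.2.ne']
  ring

end Pool.Agent.P.MP_204fa9_nt
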