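import Pool.Agent.P.MP_204fa9_nt.Cnt

/-! The partial sums of a set and the partial sums that lie in the set. -/

namespace Pool.Agent.P.MP_204fa9_nt

open Finset Real Filter Asymptotics Topology

/-- the elements in increasing order -/
noncomputable def aa (A : Set ℕ) (i : ℕ) : ℕ := Nat.nth (· ∈ A) i

/-- partial sums -/
noncomputable def ss (A : Set ℕ) (j : ℕ) : ℕ := ∑ i ∈ range j, Nat.nth (· ∈ A) i

/-- the partial sums of even length that lie in the set -/
def QQ (A : Set ℕ) : Set ℕ := {s | s ∈ A ∧ ∃ n, 1 ≤ n ∧ s = ss A (2 * n)}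

open Classical in
/-- the indicator of the partial sums of even length -/
noncomputable def zu (_ v : ℕ) (A : Set ℕ) : ℝ :=
  if ∃ y ≤ v, Even (cut A y).card ∧ (cut A y).card ≠ 0 ∧ sg A y = v then 1 else 0

variable {A : Set ℕ}

theorem zu_abs (y v : ℕ) (A : Set ℕ) : |zu y v A| ≤ 1 := by
  unfold zu; split_ifs <;> simp

theorem zu_pred (y : ℕ) : Pred (zu y) := fun v A B h => by
  unfold zu
  exact if_congr (exists_congr fun y => and_congr_right fun hy => by
    simp only [sg, cut_le h hy]) rfl rfl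

theorem inf_of {f : ℕ → ℕ} (h : Tendsto (fun n => ((cut A (f n)).card : ℝ)) atTop atTop) :
    A.Infinite := fun hA => by
  obtain ⟨n, hn⟩ := (h.eventually_gt_atTop hA.toFinset.card).exists
  exact hn.not_ge (Nat.cast_le.2 (card_le_card fun l hl => hA.mem_toFinset.2 (mem_cut.1 hl).2))

section inf
variable (hA : A.Infinite)
include hA

theorem aa_mono : StrictMono (aa A) := Nat.nth_strictMono hA

theorem aa_mem (i : ℕ) : aa A i ∈ A := Nat.nth_mem_of_infinite hA i

theorem cut_aa (j : ℕ) : cut A (aa A j) = (range j).image (aa A) := Finset.ext fun l => by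
  rw [mem_cut, mem_image]
  constructor
  · rintro ⟨a, b⟩
    obtain ⟨i, rfl⟩ : l ∈ Set.range (aa A) := (Nat.range_nth_of_infinite hA).symm ▸ b
    exact ⟨i, mem_range.2 ((aa_mono hA).lt_iff_lt.1 a), rfl⟩
  · rintro ⟨i, a, rfl⟩
    exact ⟨aa_mono hA (mem_range.1 a), aa_mem hA i⟩

theorem sum_aa {M : Type} [AddCommMonoid M] (f : ℕ → M) (j : ℕ) :
    ∑ l ∈ cut A (aa A j), f l = ∑ i ∈ range j, f (aa A i) := by
  rw [cut_aa hA, sum_image fun _ _ _ _ h => (aa_mono hA).injective h]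

theorem card_aa (j : ℕ) : (cut A (aa A j)).card = j := by
  rw [cut_aa hA, card_image_of_injective _ (aa_mono hA).injective, card_range]

theorem sg_aa (j : ℕ) : sg A (aa A j) = ss A j := sum_aa hA _ j

theorem cut_eq (y : ℕ) : cut A y = cut A (aa A (cut A y).card) := by
  have m : ∀ {u v : ℕ}, u ≤ v → cut A u ⊆ cut A v := fun h l hl =>
    mem_cut.2 ⟨(mem_cut.1 hl).1.trans_le h, (mem_cut.1 hl).2⟩
  rcases le_total y (aa A (cut A y).card) with h | h
  · exact eq_of_subset_of_card_le (m h) (card_aa hA _).le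
  · exact (eq_of_subset_of_card_le (m h) (card_aa hA _).ge).symm

variable (h0 : 0 ∉ A)
include h0

theorem aa_gt (i : ℕ) : i < aa A i := by
  have a : 0 < aa A 0 := Nat.pos_of_ne_zero fun h => h0 (h ▸ aa_mem hA 0)
  have b := (aa_mono hA).add_le_nat i 0
  rw [add_zero] at b
  omega

theorem ss_succ (j : ℕ) : ss A j + j < ss A (j + 1) := by
  have := aa_gt hA h0 j
  rw [ss, ss, sum_range_succ]
  exact Nat.add_lt_add_left this _

theorem ss_mono : StrictMono (ss A) := strictMono_nat_of_lt_succ fun j => by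
  have := ss_succ hA h0 j
  omega

theorem S_mono : StrictMono fun n => ss A (2 * n) := fun _ _ h => ss_mono hA h0 (by omega)

open Classical in
theorem zu_eq (y v : ℕ) : zu y v A = if ∃ n, 1 ≤ n ∧ v = ss A (2 * n) then 1 else 0 := by
  refine if_congr ⟨?_, ?_⟩ rfl rfl
  · rintro ⟨y, -, ⟨m, a⟩, b, c⟩
    refine ⟨m, by omega, ?_⟩
    rw [← c, two_mul, ← a, ← sg_aa hA, sg, sg, ← cut_eq hA]
  · rintro ⟨n, a, rfl⟩
    obtain ⟨j, e⟩ : ∃ j, 2 * n = j + 1 := ⟨2 * n - 1, by omega⟩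
    have b : sg A (aa A j + 1) = ss A (2 * n) := by
      rw [sg_pos (aa_mem hA j), sg_aa hA, e, ss, ss, sum_range_succ, aa]
    have c : (cut A (aa A j + 1)).card = 2 * n := by rw [card_pos' (aa_mem hA j), card_aa hA, e]
    refine ⟨aa A j + 1, ?_, c ▸ even_two_mul n, by omega, b⟩
    have d := (ss_mono hA h0).le_apply (x := j)
    rw [← b, sg_pos (aa_mem hA j), sg_aa hA]
    omega

theorem sum_zu (f : ℕ → ℝ) (y n : ℕ) :
    ∑ v ∈ range (ss A (2 * n)), f v * zu y v A = ∑ m ∈ Ico 1 n, f (ss A (2 * m)) := by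
  classical
  simp only [zu_eq hA h0, mul_ite, mul_one, mul_zero]
  rw [← sum_filter, ← sum_image (g := fun m => ss A (2 * m))
    fun _ _ _ _ h => (S_mono hA h0).injective h]
  refine sum_congr (Finset.ext fun v => ?_) fun _ _ => rfl
  simp only [mem_filter, mem_range, mem_image, mem_Ico]
  constructor
  · rintro ⟨a, m, b, rfl⟩
    exact ⟨m, ⟨b, (S_mono hA h0).lt_iff_lt.1 a⟩, rfl⟩
  · rintro ⟨m, ⟨a, b⟩, rfl⟩
    exact ⟨S_mono hA h0 b, m, a, rfl⟩

theorem cut_zu (y Y : ℕ) : ∑ v ∈ cut A Y, zu y v A = (cut (QQ A) Y).card := by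
  classical
  simp only [zu_eq hA h0]
  rw [sum_boole]
  refine congrArg _ (congrArg _ (Finset.ext fun v => ?_))
  simp only [mem_filter, mem_cut, QQ, Set.mem_ofPred_eq, and_assoc]

theorem qv_zu (y n : ℕ) : qv (zu y) (ss A (2 * n)) A ≤ n := by
  have a := sum_zu hA h0 (fun _ => 1) y n
  rw [sum_const, Nat.card_Ico, nsmul_eq_mul, mul_one] at a
  refine le_trans (le_of_eq (sum_congr rfl fun v _ => ?_)) (a.le.trans (Nat.cast_le.2 (by omega)))
  unfold zu; split_ifs <;> simp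

theorem ss_even (h2 : 2 ∈ A) (ho : ∀ l ∈ A, l ≠ 2 → Odd l) {m : ℕ} (hm : 1 ≤ m) :
    Even (ss A (2 * m + 1)) := by
  have a : 2 ∈ cut A (aa A (2 * m + 1)) := mem_cut.2 ⟨by have := aa_gt hA h0 (2 * m + 1); omega, h2⟩
  have b : Even (∑ l ∈ (cut A (aa A (2 * m + 1))).erase 2, (l + 1)) := even_sum _ fun l hl =>
    (ho l (mem_cut.1 (mem_of_mem_erase hl)).2 (ne_of_mem_erase hl)).add_one
  have c := add_sum_erase _ (fun l => l + 1) a
  rw [sum_add_distrib (s := cut A _), sum_const, card_aa hA, smul_eq_mul] at c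
  have d := sg_aa hA (2 * m + 1)
  rw [sg] at d
  rw [d] at c
  rw [Nat.even_iff] at b ⊢
  omega

theorem sum_par {W : ℕ} (hW : Even W) (h2 : 2 ∈ A) (ho : ∀ l ∈ A, l ≠ 2 → Odd l) {n : ℕ}
    (hn : 1 ≤ n) : ∑ j ∈ range (2 * n), ee W (ss A j) =
      ee W (ss A 0) + ee W (ss A 1) + ∑ m ∈ Ico 1 n, ee W (ss A (2 * m)) := by
  induction n, hn using Nat.le_induction with
  | base => simp [sum_range_succ]
  | succ n hn ih =>
    have a : ee W (ss A (2 * n + 1)) = 0 := by
      rw [ee_cast, if_neg]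
      exact Nat.not_coprime_of_dvd_of_dvd one_lt_two (ss_even hA h0 h2 ho hn).two_dvd hW.two_dvd
    rw [mul_add, mul_one, sum_range_succ, sum_range_succ, ih, a, sum_Ico_succ_top hn]
    ring

end inf

end Pool.Agent.P.MP_204fa9_nt
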