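import Pool.Agent.P.MP_204fa9_nt.Exp

/-! The comparison of the two parameters for a typical set. -/

namespace Pool.Agent.P.MP_204fa9_nt

open Finset Real Filter Asymptotics Topology MeasureTheory ProbabilityTheory

/-- the normalised partial sum -/
noncomputable def tt (A : Set ℕ) (n : ℕ) : ℝ := ss A (2 * n) / (2 * (n : ℝ) ^ 2 * log n)

variable {A : Set ℕ}

theorem det (hA : A.Infinite) (z0 : 0 ∉ A)
    (hS : (fun n : ℕ => log (ss A (2 * n)) - (log 2 + 2 * log n + log (log n) + gg (log n)))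
      =O[atTop] fun n : ℕ => (log n)⁻¹)
    (hK : (fun n : ℕ => log ((cut (QQ A) (ss A (2 * n))).card + 1) -
      (log n - log (log n) - gg (log n) / 2)) =O[atTop] fun n : ℕ => (log n)⁻¹) :
    (QQ A).Infinite ∧ ∃ C : ℝ, ∀ᶠ k : ℕ in atTop, ∀ M : ℝ, 0 < M →
      (Nat.nth (· ∈ QQ A) (k - 1) : ℝ) =
        2 * (k : ℝ) ^ 2 * M ^ 5 * log k ^ 2 * (log k + log (log k) + 2 * log M) →
      M ≤ tt A ⌊k * log k⌋₊ ∧ |(tt A ⌊k * log k⌋₊ - M) * log k - log (log k) / 5| ≤ C := by
  have a1 : (fun n : ℕ => log ((cut (QQ A) (ss A (2 * n))).card + 1) - log n) =O[atTop]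
      fun n : ℕ => log (log n) := near_of lg_top (c := -1)
    (((hK.trans (inv_one' lg_top)).sub ((gg_one lg_top).const_mul_left (1 / 2))).congr_left
      fun _ => by ring)
  have hQ : (QQ A).Infinite := inf_of (f := fun n => ss A (2 * n))
    ((tendsto_atTop_add_const_right _ (-1) (top_of_log (fun _ => by positivity)
      (near_top lg_top a1))).congr fun _ => by ring)
  refine ⟨hQ, ?_⟩
  choose n n1 hn using fun k => (aa_mem hQ (k - 1)).2
  have hn0 : Tendsto n atTop atTop := tendsto_atTop.2 fun b =>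
    (eventually_ge_atTop (ss A (2 * b) + 1)).mono fun k hk => by
      refine (S_mono hA z0).le_iff_le.1 ?_
      have := (aa_mono hQ).le_apply (x := k - 1)
      simp only [← hn k]
      omega
  have hx : Tendsto (fun k => log (n k)) atTop atTop := lg_top.comp hn0
  have hL : (fun k : ℕ => log k - (log (n k) - log (log (n k)) - gg (log (n k)) / 2)) =O[atTop]
      fun k => (log (n k))⁻¹ := by
    refine (hK.comp_tendsto hn0).congr' ((eventually_ge_atTop 1).mono fun k hk => ?_)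
      EventuallyEq.rfl
    simp only [Function.comp, ← hn k, card_aa hQ, Nat.cast_pred hk, sub_add_cancel]
  have b1 : (fun k : ℕ => log k - log (n k)) =O[atTop] fun k => log (log (n k)) :=
    near_of hx (c := -1) (((hL.trans (inv_one' hx)).sub
      ((gg_one hx).const_mul_left (1 / 2))).congr_left fun _ => by ring)
  have k0 : ∀ᶠ k : ℕ in atTop, (0 : ℝ) < k ∧ 0 < log k :=
    (tendsto_natCast_atTop_atTop.eventually_gt_atTop 0).and (lg_top.eventually_gt_atTop 0)
  have hY : Tendsto (fun k : ℕ => k * log k) atTop atTop :=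
    tendsto_natCast_atTop_atTop.atTop_mul_atTop₀ lg_top
  have hN : Tendsto (fun k : ℕ => ⌊k * log k⌋₊) atTop atTop := tendsto_nat_floor_atTop.comp hY
  have b2 : (fun k : ℕ => log ⌊k * log k⌋₊ - log k) =O[atTop] fun k : ℕ => log (log k) := by
    refine near_of lg_top (c := 1) (((log_rel hY (X := fun k : ℕ => ⌊k * log k⌋₊)
      (hY.eventually_gt_atTop 0) (IsBigO.of_bound' ((hY.eventually_gt_atTop 0).mono
        fun k h => ?_))).trans (inv_one' hY)).congr' (k0.mono fun k h => ?_) EventuallyEq.rfl)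
    · rw [div_self h.ne', norm_one, Real.norm_eq_abs]
      exact Nat.abs_floor_sub_le h.le
    · simp only [log_mul h.1.ne' h.2.ne']
      ring
  have s0 : ∀ m, 1 ≤ m → (0 : ℝ) < ss A (2 * m) := fun m h =>
    Nat.cast_pos.2 (h.trans (S_mono hA z0).le_apply)
  have b3 : (fun m : ℕ => log (tt A m) - gg (log m)) =O[atTop] fun m : ℕ => (log m)⁻¹ := by
    refine hS.congr' ?_ EventuallyEq.rfl
    filter_upwards [k0, eventually_ge_atTop 1] with m h h1
    have := h.1.ne'
    have := h.2.ne'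
    rw [tt, log_div (s0 m h1).ne' (by positivity), log_mul (by positivity) this,
      log_mul two_ne_zero (by positivity), log_pow]
    push_cast; ring
  have ht : (fun k : ℕ => log (tt A ⌊k * log k⌋₊) - gg (log (n k))) =O[atTop]
      fun k => (log (n k))⁻¹ :=
    ((((((b3.comp_tendsto hN).trans (near_equiv lg_top b2).inv.isBigO).add
      (gg_near lg_top b2)).trans (near_equiv hx b1).inv.isBigO)).add (gg_near hx b1)).congr_left
      fun _ => by simp only [Function.comp]; ring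
  let F : Filter (ℕ × ℝ) := comap Prod.fst atTop ⊓ 𝓟 {z | 0 < z.2 ∧
    (ss A (2 * n z.1) : ℝ) = 2 * (z.1 : ℝ) ^ 2 * z.2 ^ 5 * log z.1 ^ 2 *
      (log z.1 + log (log z.1) + 2 * log z.2)}
  have hF : Tendsto Prod.fst F atTop := tendsto_comap.mono_left inf_le_left
  have hm : ∀ᶠ z in F, 0 < log z.1 + log (log z.1) + 2 * log z.2 ∧
      log (ss A (2 * n z.1)) = log 2 + 2 * log z.1 + 5 * log z.2 + 2 * log (log z.1) +
        log (log z.1 + log (log z.1) + 2 * log z.2) := by
    filter_upwards [hF.eventually k0, mem_inf_of_right (mem_principal_self _)] with z h1 h2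
    obtain ⟨c1, c2⟩ := h1
    obtain ⟨c3, c4⟩ := h2
    have c5 : 0 < log z.1 + log (log z.1) + 2 * log z.2 :=
      (mul_pos_iff_of_pos_left (by positivity)).1 (c4 ▸ s0 _ (n1 _))
    refine ⟨c5, ?_⟩
    rw [c4, log_mul (by positivity) c5.ne', log_mul (by positivity) (by positivity),
      log_mul (by positivity) (by positivity), log_mul two_ne_zero (by positivity), log_pow,
      log_pow, log_pow]
    push_cast; ring
  obtain ⟨C, hC⟩ := (final (hx.comp hF) (hL.comp_tendsto hF)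
    ((hS.comp_tendsto hn0).comp_tendsto hF) hm (ht.comp_tendsto hF)).bound
  refine ⟨C, ?_⟩
  filter_upwards [eventually_comap.1 (eventually_inf_principal.1 hC), k0, hN.eventually k0,
    hN.eventually_ge_atTop 1, (tendsto_log_atTop.comp lg_top).eventually_ge_atTop (5 * C)]
    with k h1 h2 h3 h4 h5 M hM e
  have t0 : 0 < tt A ⌊k * log k⌋₊ := div_pos (s0 _ h4) (by have := h3.1; have := h3.2; positivity)
  have h6 := h1 (k, M) rfl ⟨hM, hn k ▸ e⟩
  simp only [exp_log hM, exp_log t0, norm_one, mul_one, Real.norm_eq_abs] at h6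
  refine ⟨sub_nonneg.1 (nonneg_of_mul_nonneg_left ?_ h2.2), h6⟩
  have h7 : 5 * C ≤ log (log k) := h5
  linarith [(abs_le.1 h6).1]

theorem main {Ω : Type*} [MeasurableSpace Ω] {P : Measure Ω} {E : ℕ → Set Ω} {W : ℕ} (hW : Even W)
    (hW0 : 0 < W) (hE : ∀ l, MeasurableSet (E l)) (hi : iIndepSet E P) (h2 : P (E 2) = 1)
    (h0 : ∀ l, Even l → l ≠ 2 → P (E l) = 0)
    (h : ∀ᶠ l : ℕ in atTop,
      P.real (E l) = if l.Coprime W then (W : ℝ) / W.totient / log l else 0) :
    ∀ᵐ ω ∂P, (QQ {l | ω ∈ E l}).Infinite ∧ ∃ C : ℝ, ∀ᶠ k : ℕ in atTop, ∀ M : ℝ, 0 < M →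
      (Nat.nth (· ∈ QQ {l | ω ∈ E l}) (k - 1) : ℝ) =
        2 * (k : ℝ) ^ 2 * M ^ 5 * log k ^ 2 * (log k + log (log k) + 2 * log M) →
      M ≤ tt {l | ω ∈ E l} ⌊k * log k⌋₊ ∧
        |(tt {l | ω ∈ E l} ⌊k * log k⌋₊ - M) * log k - log (log k) / 5| ≤ C := by
  have := hi.isProbabilityMeasure
  have : NeZero W := ⟨hW0.ne'⟩
  have p0 : ∀ l, |P.real (E l)| ≤ 1 := fun l => by
    rw [abs_of_nonneg measureReal_nonneg]; exact measureReal_le_one
  have hp : ∀ᶠ l : ℕ in atTop, P.real (E l) = ee W l / log l := h.mono fun l e => by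
    rw [e, ee_cast, ite_div, zero_div]
  obtain ⟨G, D, hD, hb, hG⟩ := exists_G (W := W)
  have a1 : ∀ᵐ ω ∂P, ω ∈ E 2 := (mem_ae_iff_prob_eq_one (hE 2)).2 h2
  have a2 : ∀ᵐ ω ∂P, ∀ l, Even l → l ≠ 2 → ω ∉ E l := ae_all_iff.2 fun l =>
    eventually_imp_distrib_left.2 fun a => eventually_imp_distrib_left.2 fun b =>
      measure_eq_zero_iff_ae_notMem.1 (h0 l a b)
  filter_upwards [a1, a2, ae_mg hE hi (z := fun _ _ _ => 1) (fun _ _ _ _ _ => rfl)
    fun _ _ _ => abs_one.le, ae_mg hE hi (z := zl) (fun _ _ _ _ _ => rfl) zl_abs,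
    ae_mg hE hi (z := zp G D) (fun _ _ _ _ e => by simp only [zp, sg, e]) hb,
    ae_mg hE hi zu_pred zu_abs] with ω b1 b2 b3 b4 b5 b6
  have ho : ∀ l ∈ {l | ω ∈ E l}, l ≠ 2 → Odd l := fun l a b =>
    Nat.not_even_iff_odd.1 fun c => b2 l c b a
  have hc := cnt_est p0 hp b3
  obtain ⟨c1, c2⟩ := S_exp hc (sg_est p0 hp b4) (res_est p0 hp b3 hD hb hG b5)
  exact det (A_inf hc) (b2 0 Even.zero (by norm_num)) c1 (K_exp hW p0 hp (A_inf hc) b1 ho b6 c1 c2)

end Pool.Agent.P.MP_204fa9_nt
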