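import Mathlib

/-! Predictable sums against independent events: an exponential bound and Borel-Cantelli. -/

namespace Pool.Agent.P.MP_204fa9_nt

open Finset Real MeasureTheory ProbabilityTheory Filter

open Classical in
/-- the part of `A` below `y` -/
noncomputable def cut (A : Set ℕ) (y : ℕ) : Finset ℕ := (range y).filter fun l => l ∈ A

theorem mem_cut {A : Set ℕ} {y l : ℕ} : l ∈ cut A y ↔ l < y ∧ l ∈ A := by
  simp [cut]

theorem cut_congr {A B : Set ℕ} {y : ℕ} (h : ∀ l < y, l ∈ A ↔ l ∈ B) : cut A y = cut B y :=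
  Finset.ext fun l => by
    rw [mem_cut, mem_cut]; exact and_congr_right (h l)

theorem cut_le {A B : Set ℕ} {y v : ℕ} (h : cut A y = cut B y) (hv : v ≤ y) : cut A v = cut B v :=
  cut_congr fun l hl => by
    have := Finset.ext_iff.1 h l
    rw [mem_cut, mem_cut] at this
    have e : l < y := by omega
    simpa only [e, true_and] using this

theorem cut_pos {A : Set ℕ} {y : ℕ} (h : y ∈ A) : cut A (y + 1) = insert y (cut A y) :=
  Finset.ext fun l => by
    rw [mem_insert, mem_cut, mem_cut]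
    constructor
    · rintro ⟨a, b⟩
      rcases Nat.lt_succ_iff_lt_or_eq.1 a with c | c
      · exact Or.inr ⟨c, b⟩
      · exact Or.inl c
    · rintro (rfl | ⟨a, b⟩)
      · exact ⟨by omega, h⟩
      · exact ⟨by omega, b⟩

theorem cut_neg {A : Set ℕ} {y : ℕ} (h : y ∉ A) : cut A (y + 1) = cut A y :=
  Finset.ext fun l => by
    rw [mem_cut, mem_cut]
    constructor
    · rintro ⟨a, b⟩
      rcases Nat.lt_succ_iff_lt_or_eq.1 a with c | c
      · exact ⟨c, b⟩
      · exact absurd (c ▸ b) h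
    · rintro ⟨a, b⟩
      exact ⟨by omega, b⟩

theorem not_mem_cut (A : Set ℕ) (y : ℕ) : y ∉ cut A y := fun h => lt_irrefl _ (mem_cut.1 h).1

theorem sum_cut_pos {M : Type} [AddCommMonoid M] {A : Set ℕ} {y : ℕ} (h : y ∈ A) (f : ℕ → M) :
    ∑ l ∈ cut A (y + 1), f l = ∑ l ∈ cut A y, f l + f y := by
  rw [cut_pos h, sum_insert (not_mem_cut A y), add_comm]

/-- `z v` depends only on the part of the set below `v` -/
def Pred (z : ℕ → Set ℕ → ℝ) : Prop := ∀ v A B, cut A v = cut B v → z v A = z v B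

/-- the compensated sum -/
noncomputable def mg (p : ℕ → ℝ) (z : ℕ → Set ℕ → ℝ) (y : ℕ) (A : Set ℕ) : ℝ :=
  ∑ l ∈ cut A y, z l A - ∑ l ∈ range y, p l * z l A

/-- the sum of squares -/
noncomputable def qv (z : ℕ → Set ℕ → ℝ) (y : ℕ) (A : Set ℕ) : ℝ := ∑ l ∈ range y, z l A ^ 2

variable {p : ℕ → ℝ} {z : ℕ → Set ℕ → ℝ}

theorem mg_congr (hz : Pred z) {A B : Set ℕ} {y : ℕ} (h : cut A y = cut B y) :
    mg p z y A = mg p z y B := by
  have e : ∀ l < y, z l A = z l B := fun l hl => hz l A B (cut_le h hl.le)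
  rw [mg, mg, ← h, sum_congr rfl fun l hl => e l (mem_cut.1 hl).1,
    sum_congr rfl fun l hl => congrArg (p l * ·) (e l (mem_range.1 hl))]

theorem qv_congr (hz : Pred z) {A B : Set ℕ} {y : ℕ} (h : cut A y = cut B y) :
    qv z y A = qv z y B :=
  sum_congr rfl fun l hl => by rw [hz l A B (cut_le h (mem_range.1 hl).le)]

/-- the weight of a finite outcome -/
noncomputable def wt (p : ℕ → ℝ) (y : ℕ) (B : Finset ℕ) : ℝ :=
  ∏ l ∈ range y, if l ∈ B then p l else 1 - p l

theorem wt_nonneg (hp : ∀ l, 0 ≤ p l ∧ p l ≤ 1) (y : ℕ) (B : Finset ℕ) : 0 ≤ wt p y B :=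
  prod_nonneg fun l _ => by
    split_ifs
    · exact (hp l).1
    · linarith [(hp l).2]

theorem step {q u : ℝ} (h0 : 0 ≤ q) (h1 : q ≤ 1) (hu : |u| ≤ 1) :
    q * exp (u - q * u - u ^ 2) + (1 - q) * exp (-(q * u) - u ^ 2) ≤ 1 := by
  have a1 : |u - q * u| ≤ 1 := by
    rw [show u - q * u = (1 - q) * u by ring, abs_mul, abs_of_nonneg (by linarith)]
    nlinarith [abs_nonneg u]
  have a2 : |-(q * u)| ≤ 1 := by
    rw [abs_neg, abs_mul, abs_of_nonneg h0]
    nlinarith [abs_nonneg u]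
  have b1 := (abs_le.1 (abs_exp_sub_one_sub_id_le a1)).2
  have b2 := (abs_le.1 (abs_exp_sub_one_sub_id_le a2)).2
  have b3 := add_one_le_exp (u ^ 2)
  rw [exp_sub, exp_sub _ (u ^ 2), ← mul_div_assoc, ← mul_div_assoc, ← add_div,
    div_le_one (exp_pos _)]
  have c1 := mul_le_mul_of_nonneg_left b1 h0
  have c2 := mul_le_mul_of_nonneg_left b2 (sub_nonneg.2 h1)
  have c3 : 0 ≤ u ^ 2 * (1 - q * (1 - q)) := mul_nonneg (sq_nonneg u) (by nlinarith)
  nlinarith

theorem super (hp : ∀ l, 0 ≤ p l ∧ p l ≤ 1) (hz : Pred z) (hb : ∀ v A, |z v A| ≤ 1) (y : ℕ) :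
    ∑ B ∈ (range y).powerset, wt p y B * exp (mg p z y B - qv z y B) ≤ 1 := by
  induction y with
  | zero => simp [wt, mg, qv, cut]
  | succ y ih =>
    rw [range_add_one, sum_powerset_insert notMem_range_self, ← sum_add_distrib]
    refine le_trans (sum_le_sum fun B hB => ?_) ih
    have a0 : y ∉ B := fun h => notMem_range_self (mem_powerset.1 hB h)
    have a1 : cut ((insert y B : Finset ℕ) : Set ℕ) y = cut B y := cut_congr fun l hl => by
      simp [hl.ne]
    have a2 : wt p (y + 1) B = wt p y B * (1 - p y) := by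
      rw [wt, prod_range_succ, if_neg a0, wt]
    have a3 : wt p (y + 1) (insert y B) = wt p y B * p y := by
      rw [wt, prod_range_succ, if_pos (mem_insert_self y B), wt]
      congr 1
      exact prod_congr rfl fun l hl => by simp [(mem_range.1 hl).ne]
    have a4 : mg p z (y + 1) B - qv z (y + 1) B =
        mg p z y B - qv z y B + (-(p y * z y B) - z y B ^ 2) := by
      rw [mg, mg, qv, qv, cut_neg (by simpa using a0), sum_range_succ, sum_range_succ]
      ring
    have a5 : mg p z (y + 1) (insert y B : Finset ℕ) - qv z (y + 1) (insert y B : Finset ℕ) =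
        mg p z y B - qv z y B + (z y B - p y * z y B - z y B ^ 2) := by
      rw [← mg_congr hz a1, ← qv_congr hz a1, ← hz y _ _ a1, mg, mg, qv, qv,
        sum_cut_pos (by simp), sum_range_succ, sum_range_succ]
      ring
    rw [a2, a3, a4, a5, exp_add, exp_add]
    have b := mul_le_mul_of_nonneg_left (step (hp y).1 (hp y).2 (hb y B))
      (mul_nonneg (wt_nonneg hp y B) (exp_pos (mg p z y B - qv z y B)).le)
    linarith

variable {Ω : Type*} [MeasurableSpace Ω] {P : Measure Ω} {E : ℕ → Set Ω}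

theorem atom (hE : ∀ l, MeasurableSet (E l)) (hi : iIndepSet E P) (y : ℕ) (B : Finset ℕ) :
    P.real (⋂ l ∈ range y, if l ∈ B then E l else (E l)ᶜ) = wt (fun l => P.real (E l)) y B := by
  have := hi.isProbabilityMeasure
  have h1 := (iIndepSet_iff _ _).1 hi (range y)
    (f := fun l => if l ∈ B then E l else (E l)ᶜ) fun i _ => by
      have b : MeasurableSet[MeasurableSpace.generateFrom {E i}] (E i) :=
        MeasurableSpace.measurableSet_generateFrom rfl
      by_cases c : i ∈ B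
      · rw [if_pos c]; exact b
      · rw [if_neg c]; exact b.compl
  rw [measureReal_def, h1, ENNReal.toReal_prod, wt]
  refine prod_congr rfl fun i _ => ?_
  split_ifs
  · rfl
  · rw [← measureReal_def, measureReal_compl (hE i), probReal_univ]

theorem tail (hE : ∀ l, MeasurableSet (E l)) (hi : iIndepSet E P) (hz : Pred z)
    (hb : ∀ v A, |z v A| ≤ 1) (y : ℕ) (t : ℝ) :
    P.real {ω | t ≤ mg (fun l => P.real (E l)) z y {l | ω ∈ E l} - qv z y {l | ω ∈ E l}} ≤
      exp (-t) := by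
  classical
  have := hi.isProbabilityMeasure
  have hp : ∀ l, 0 ≤ P.real (E l) ∧ P.real (E l) ≤ 1 := fun l =>
    ⟨measureReal_nonneg, measureReal_le_one⟩
  have h1 : {ω | t ≤ mg (fun l => P.real (E l)) z y {l | ω ∈ E l} - qv z y {l | ω ∈ E l}} ⊆
      ⋃ B ∈ (range y).powerset.filter fun B : Finset ℕ =>
        t ≤ mg (fun l => P.real (E l)) z y B - qv z y B,
        ⋂ l ∈ range y, if l ∈ B then E l else (E l)ᶜ := fun ω h => by
    have e : cut (cut {l | ω ∈ E l} y : Set ℕ) y = cut {l | ω ∈ E l} y := cut_congr fun l hl => by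
      simp [mem_cut, hl]
    refine Set.mem_iUnion₂.2 ⟨cut {l | ω ∈ E l} y, mem_filter.2 ⟨mem_powerset.2 fun l hl =>
      mem_range.2 (mem_cut.1 hl).1, ?_⟩, Set.mem_iInter₂.2 fun i hi => ?_⟩
    · rw [mg_congr hz e, qv_congr hz e]; exact h
    · by_cases c : ω ∈ E i <;> simp [c, mem_cut, mem_range.1 hi]
  refine (measureReal_mono h1 (measure_ne_top _ _)).trans
    ((measureReal_biUnion_finset_le _ _).trans ?_)
  rw [sum_congr rfl fun B _ => atom hE hi y B, sum_filter]
  refine le_trans ?_ (mul_le_of_le_one_right (exp_pos _).le (super hp hz hb y))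
  rw [mul_sum]
  refine sum_le_sum fun B _ => ?_
  have w := wt_nonneg hp y B
  rw [mul_left_comm, ← exp_add]
  split_ifs with c
  · exact le_mul_of_one_le_right w (one_le_exp (by linarith))
  · exact mul_nonneg w (exp_pos _).le

theorem ae_half (hE : ∀ l, MeasurableSet (E l)) (hi : iIndepSet E P) {z : ℕ → ℕ → Set ℕ → ℝ}
    (hz : ∀ y, Pred (z y)) (hb : ∀ y v A, |z y v A| ≤ 1) :
    ∀ᵐ ω ∂P, ∀ᶠ y : ℕ in atTop, mg (fun l => P.real (E l)) (z y) y {l | ω ∈ E l} -
      qv (z y) y {l | ω ∈ E l} < 2 * log y := by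
  have := hi.isProbabilityMeasure
  let B : ℕ → Set Ω := fun y => {ω | 2 * log (y + 1 : ℕ) ≤
    mg (fun l => P.real (E l)) (z (y + 1)) (y + 1) {l | ω ∈ E l} -
      qv (z (y + 1)) (y + 1) {l | ω ∈ E l}}
  have a1 : ∀ y, P (B y) ≤ ENNReal.ofReal (1 / ((y + 1 : ℕ) : ℝ) ^ 2) := fun y => by
    rw [← ofReal_measureReal]
    refine ENNReal.ofReal_le_ofReal ((tail hE hi (hz _) (hb _) _ _).trans_eq ?_)
    rw [exp_neg, mul_comm, exp_mul, exp_log (by positivity), one_div, rpow_two]
  have a2 : ∑' y, P (B y) ≠ ⊤ := ne_top_of_le_ne_top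
    ((summable_nat_add_iff (f := fun y : ℕ => 1 / (y : ℝ) ^ 2) 1).2
      (summable_one_div_nat_pow.2 one_lt_two)).tsum_ofReal_ne_top (ENNReal.tsum_le_tsum a1)
  refine (ae_eventually_notMem a2).mono fun ω h => ?_
  obtain ⟨c, hc⟩ := eventually_atTop.1 h
  refine eventually_atTop.2 ⟨c + 1, fun y hy => ?_⟩
  obtain ⟨y, rfl⟩ : ∃ x, y = x + 1 := ⟨y - 1, by omega⟩
  exact not_le.1 (hc y (by omega))

theorem mg_mul (c : ℝ) (y : ℕ) (A : Set ℕ) :
    mg p (fun v A => c * z v A) y A = c * mg p z y A := by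
  simp only [mg, mul_sub, mul_sum, mul_left_comm]

theorem qv_mul (c : ℝ) (y : ℕ) (A : Set ℕ) :
    qv (fun v A => c * z v A) y A = c ^ 2 * qv z y A := by
  simp only [qv, mul_sum, mul_pow]

theorem ae_mg (hE : ∀ l, MeasurableSet (E l)) (hi : iIndepSet E P) {z : ℕ → ℕ → Set ℕ → ℝ}
    (hz : ∀ y, Pred (z y)) (hb : ∀ y v A, |z y v A| ≤ 1) :
    ∀ᵐ ω ∂P, ∀ᶠ y : ℕ in atTop, |mg (fun l => P.real (E l)) (z y) y {l | ω ∈ E l}| ≤
      qv (z y) y {l | ω ∈ E l} / log y ^ 4 + 2 * log y ^ 5 := by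
  have key : ∀ s : ℝ, |s| = 1 → ∀ᵐ ω ∂P, ∀ᶠ y : ℕ in atTop,
      s * mg (fun l => P.real (E l)) (z y) y {l | ω ∈ E l} ≤
        qv (z y) y {l | ω ∈ E l} / log y ^ 4 + 2 * log y ^ 5 := fun s hs => by
    refine (ae_half hE hi (z := fun y v A => (s / max 1 (log y ^ 4)) * z y v A)
      (fun y v A B h => by simp only [hz y v A B h]) fun y v A => ?_).mono fun ω h => ?_
    · have m : (1 : ℝ) ≤ max 1 (log y ^ 4) := le_max_left _ _
      rw [abs_mul, abs_div, hs, abs_of_pos (by linarith : 0 < max 1 (log y ^ 4))]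
      exact mul_le_one₀ ((div_le_one (by linarith)).2 m) (abs_nonneg _) (hb y v A)
    · filter_upwards [h, (tendsto_log_atTop.comp tendsto_natCast_atTop_atTop).eventually_ge_atTop 1]
        with y h1 h2
      have m : (1 : ℝ) ≤ log y ^ 4 := one_le_pow₀ h2
      have s2 : s ^ 2 = 1 := by rw [← sq_abs, hs, one_pow]
      rw [mg_mul, qv_mul, max_eq_right m, div_pow, s2] at h1
      have h3 := mul_le_mul_of_nonneg_left h1.le (by linarith : 0 ≤ log y ^ 4)
      have m0 : log (y : ℝ) ≠ 0 := by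
        have : (1 : ℝ) ≤ log y := h2
        linarith
      refine le_trans (le_of_eq ?_) ((add_le_add_right h3 (qv (z y) y {l | ω ∈ E l} / log y ^ 4)).trans_eq ?_)
      · field_simp; ring
      · ring
  filter_upwards [key 1 abs_one, key (-1) (by simp)] with ω h1 h2
  filter_upwards [h1, h2] with y a b
  rw [abs_le]
  constructor <;> linarith

end Pool.Agent.P.MP_204fa9_nt
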